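import Pool.Agent.Helper90_ANE.LAW
import Pool.Agent.Helper72_ANE.Ctz
import Pool.Agent.Helper61_BED.Cov

/-!
# ACS: from the mean over the sites of a torus to the origin of the lattice
-/

set_option autoImplicit false

open MeasureTheory ProbabilityTheory Function Filter

open scoped ENNReal BigOperators InnerProductSpace Topology NNReal

noncomputable section

namespace Pool.Agent.ACS.H72

open Pool.Agent.Anderson hiding box mem_box card_box
open Pool.Agent.Loc Pool.Agent.Mob Pool.Agent.Helper54.Bal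
  Pool.Agent.Helper96.EXP Pool.Agent.BED
open Pool.Agent.LE.MN Pool.Agent.LE.CL Pool.Agent.LE.IR Pool.Agent.LE.QD

section tor

variable {d M : ℕ} [NeZero M]

/-- the resolvent of the translated potential -/
theorem rs_tr (V : Tor d M → ℝ) (z : ℂ) (x y w : Tor d M) :
    rs (tr x V) z y w = rs V z (x + y) (x + w) := by
  have h : hz (tr x V) z = (hz V z).submatrix (Equiv.addLeft x) (Equiv.addLeft x) := by
    ext y w
    simp only [hz, tr, adj, Matrix.add_apply, Matrix.map_apply, Matrix.submatrix_apply,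
      Equiv.coe_addLeft, Matrix.of_apply, Matrix.diagonal_apply, add_right_inj]
    congr 2
    refine Finset.sum_congr rfl fun i _ => ?_
    have h1 : (x + w = x + y + ev i) ↔ w = y + ev i := by rw [add_assoc, add_right_inj]
    have h2 : (x + w = x + y - ev i) ↔ w = y - ev i := by
      rw [add_sub_assoc, add_right_inj]
    simp only [h1, h2]
  unfold rs
  rw [h, Matrix.inv_submatrix_equiv]
  rfl

theorem mp_tr (v : ℝ≥0) (x : Tor d M) : MeasurePreserving (tr x) (gau d M v) (gau d M v) :=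
  (Pool.Agent.BED.H61.cov d M 0 0 x).2.2.2.2.2 v

/-- the set of the potentials with a small imaginary part at `x` -/
def Sm (d M : ℕ) [NeZero M] (z : ℂ) (c : ℝ) (x : Tor d M) : Set (Tor d M → ℝ) :=
  {V | (rs V z x x).im < c}

theorem meas_Sm {z : ℂ} (hz : 0 < z.im) (c : ℝ) (x : Tor d M) : MeasurableSet (Sm d M z c x) :=
  measurableSet_lt (Complex.measurable_im.comp (Pool.Agent.ANE.H90.mrs d M z x x hz))
    measurable_const

/-- all the sites are equal -/
theorem gau_Sm (v : ℝ≥0) {z : ℂ} (hz : 0 < z.im) (c : ℝ) (x : Tor d M) :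
    gau d M v (Sm d M z c x) = gau d M v (Sm d M z c 0) := by
  have h1 := (mp_tr (d := d) (M := M) v x).measure_preimage
    (meas_Sm (d := d) (M := M) hz c 0).nullMeasurableSet
  rw [← h1]
  congr 1
  ext V
  show (rs V z x x).im < c ↔ (rs (tr x V) z 0 0).im < c
  rw [rs_tr, add_zero]

/-- THE MEAN OVER THE SITES: `W` an event (for example `WL`) -/
theorem mean_le (v : ℝ≥0) {z : ℂ} (hz : 0 < z.im) (c : ℝ) {W : Set (Tor d M → ℝ)}
    (hW : MeasurableSet W) :
    gau d M v {V | (rs V z 0 0).im < c} ≤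
      ∫⁻ V, W.indicator (fun V => ((Finset.univ.filter fun x : Tor d M =>
        (rs V z x x).im < c).card : ℝ≥0∞) / (Fintype.card (Tor d M) : ℝ≥0∞)) V ∂(gau d M v) +
        gau d M v Wᶜ := by
  classical
  set g := gau d M v with hg
  have hc0 : (Fintype.card (Tor d M) : ℝ≥0∞) ≠ 0 := by
    exact_mod_cast Fintype.card_ne_zero
  have hct : (Fintype.card (Tor d M) : ℝ≥0∞) ≠ ∞ := ENNReal.natCast_ne_top _
  have h0 : g (Sm d M z c 0) = (∑ x, g (Sm d M z c x)) / (Fintype.card (Tor d M) : ℝ≥0∞) := by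
    rw [ENNReal.eq_div_iff hc0 hct, Finset.sum_congr rfl fun x _ =>
      gau_Sm (d := d) (M := M) v hz c x, Finset.sum_const, Finset.card_univ, nsmul_eq_mul]
  have h1 : ∀ V, ((Finset.univ.filter fun x : Tor d M => (rs V z x x).im < c).card : ℝ≥0∞) =
      ∑ x : Tor d M, (Sm d M z c x).indicator (1 : (Tor d M → ℝ) → ℝ≥0∞) V := by
    intro V
    rw [Finset.card_filter]
    push_cast
    refine Finset.sum_congr rfl fun x _ => ?_
    by_cases h : (rs V z x x).im < c
    · rw [if_pos h, Set.indicator_of_mem (show V ∈ Sm d M z c x from h)]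
      rfl
    · rw [if_neg h, Set.indicator_of_notMem (show V ∉ Sm d M z c x from h)]
  have h2 : ∫⁻ V, ((Finset.univ.filter fun x : Tor d M => (rs V z x x).im < c).card : ℝ≥0∞) /
      (Fintype.card (Tor d M) : ℝ≥0∞) ∂g = g (Sm d M z c 0) := by
    rw [h0]
    simp_rw [h1, ENNReal.div_eq_inv_mul]
    rw [lintegral_const_mul _ (Finset.measurable_fun_sum _ fun x _ =>
      measurable_one.indicator (meas_Sm hz c x)), lintegral_finsetSum _ fun x _ =>
      measurable_one.indicator (meas_Sm hz c x)]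
    congr 1
    refine Finset.sum_congr rfl fun x _ => ?_
    rw [lintegral_indicator_one (meas_Sm hz c x)]
  have h3 : g (Sm d M z c 0) ≤ ∫⁻ V, (W.indicator (fun V => ((Finset.univ.filter
      fun x : Tor d M => (rs V z x x).im < c).card : ℝ≥0∞) / (Fintype.card (Tor d M) : ℝ≥0∞)) V +
        (Wᶜ).indicator 1 V) ∂g := by
    rw [← h2]
    refine lintegral_mono fun V => ?_
    by_cases hV : V ∈ W
    · rw [Set.indicator_of_mem hV]
      exact le_self_add
    · rw [Set.indicator_of_notMem hV, Set.indicator_of_mem (show V ∈ Wᶜ from hV), zero_add]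
      rw [Pi.one_apply]
      refine ENNReal.div_le_of_le_mul ?_
      rw [one_mul]
      exact_mod_cast Finset.card_le_univ _
  refine h3.trans ?_
  rw [lintegral_add_right _ (measurable_one.indicator hW.compl), lintegral_indicator_one hW.compl]

/-- the complement -/
theorem ge_of_lt {v : ℝ≥0} {z : ℂ} (hz : 0 < z.im) {c q : ℝ} (hq : 0 ≤ q)
    (h : gau d M v {V | (rs V z 0 0).im < c} ≤ ENNReal.ofReal q) :
    ENNReal.ofReal (1 - q) ≤ gau d M v {V | c ≤ (rs V z 0 0).im} := by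
  have hprob : IsProbabilityMeasure (gau d M v) := by
    unfold gau
    infer_instance
  have h1 : {V : Tor d M → ℝ | c ≤ (rs V z 0 0).im} = (Sm d M z c 0)ᶜ := by
    ext V
    show c ≤ (rs V z 0 0).im ↔ ¬ (rs V z 0 0).im < c
    exact not_lt.symm
  rw [h1, prob_compl_eq_one_sub (meas_Sm hz c 0), ENNReal.ofReal_sub _ hq, ENNReal.ofReal_one]
  exact tsub_le_tsub_left h 1

end tor

/-- the threshold for `η` -/
theorem law_core (d : ℕ) : ∃ C : ℝ, 1 ≤ C ∧ ∀ (σ c p E η : ℝ) (M : ℕ) [NeZero M], σ ≠ 0 → 0 < c →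
    0 < η → η ≤ c / 2 → η ≤ 1 / (24 * C ^ 5) → 1 ≤ η ^ 2 * M →
    (∀ v : ℝ≥0, (v : ℝ) = σ ^ 2 →
      ENNReal.ofReal p ≤ gau d M v {V | c ≤ (rs V ⟨E, η⟩ 0 0).im}) →
    ENNReal.ofReal p ≤ PP d (gl σ) {V | c / 2 ≤ (G V (zz η E) (del 0) 0).im} := by
  obtain ⟨C, hC1, hC⟩ := Pool.Agent.ANE.H72.ctz d
  refine ⟨C, hC1, ?_⟩
  intro σ c p E η M _ hσ hc hη hη3 hη4 hηM hp
  have hC0 : 0 < C := by linarith
  have hη1 : η ≤ 1 := by
    refine hη4.trans ?_
    rw [div_le_one (by positivity)]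
    have : (1 : ℝ) ≤ C ^ 5 := one_le_pow₀ hC1
    linarith
  obtain ⟨v, hv⟩ : ∃ v : ℝ≥0, (v : ℝ) = σ ^ 2 := ⟨⟨σ ^ 2, sq_nonneg σ⟩, rfl⟩
  have h1 := hp v hv
  set S : Set (Tor d M → ℝ) := {V | c ≤ (rs V ⟨E, η⟩ 0 0).im} with hS
  have hSm : MeasurableSet S :=
    measurableSet_le measurable_const
      (Complex.measurable_im.comp (Pool.Agent.ANE.H90.mrs d M ⟨E, η⟩ 0 0 hη))
  have h2 : PP d (gl σ) {V : Site d → ℝ | (fun x : Tor d M => V ((0 : Site d) + rep x)) ∈ S} =
      gau d M v S := by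
    have hf : Measurable fun (V : Site d → ℝ) (x : Tor d M) => V ((0 : Site d) + rep x) :=
      measurable_pi_lambda _ fun x => measurable_pi_apply _
    have h3 := Pool.Agent.LE.QY.H60.lin_eq (d := d) (M := M) hσ hv (0 : Site d)
      (S.indicator 1) (measurable_one.indicator hSm)
    rw [lintegral_indicator_one hSm] at h3
    rw [← h3]
    exact (lintegral_indicator_one (μ := PP d (gl σ)) (hf hSm)).symm
  refine h1.trans ?_
  rw [← h2]
  apply measure_mono
  intro V hV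
  have h4 : c ≤ (rs (fun x : Tor d M => V (rep x)) ⟨E, η⟩ 0 0).im := by
    have h5 : (fun x : Tor d M => V ((0 : Site d) + rep x)) = fun x : Tor d M => V (rep x) := by
      funext x
      rw [zero_add]
    have h6 : c ≤ (rs (fun x : Tor d M => V ((0 : Site d) + rep x)) ⟨E, η⟩ 0 0).im := hV
    rwa [h5] at h6
  have h7 := (hC M V E η hη hη1).trans (Pool.Agent.ANE.H90.err_le hC1 hη hη4 hηM)
  have h8 := (Complex.abs_im_le_norm _).trans h7
  rw [Complex.sub_im] at h8
  have h9 := abs_le.1 h8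
  change c / 2 ≤ (G V (zz η E) (del 0) 0).im
  linarith [h9.1]

/-- P7: FROM THE TORI TO THE LATTICE, for a sequence `η n → 0` which does not depend on the energy -/
theorem lawS {d : ℕ} {σ a b c p : ℝ} (hσ : σ ≠ 0) (hc : 0 < c) {η : ℕ → ℝ} {M : ℕ → ℕ}
    (hN : ∀ n, NeZero (M n)) (hη : ∀ n, 0 < η n) (hlim : Tendsto η atTop (𝓝 0))
    (hM : ∀ n, 1 ≤ η n ^ 2 * M n)
    (h : ∀ E ∈ Set.Ioo a b, ∀ᶠ n in atTop, ∀ v : ℝ≥0, (v : ℝ) = σ ^ 2 →
      ENNReal.ofReal p ≤ (haveI := hN n; gau d (M n) v {V | c ≤ (rs V ⟨E, η n⟩ 0 0).im})) :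
    ∀ E ∈ Set.Ioo a b, ∀ᶠ n in atTop,
      ENNReal.ofReal p ≤ PP d (gl σ) {V | c / 2 ≤ (G V (zz (η n) E) (del 0) 0).im} := by
  intro E hE
  obtain ⟨C, hC1, hC⟩ := law_core d
  have hε1 : 0 < min (c / 2) (1 / (24 * C ^ 5)) := lt_min (by positivity) (by positivity)
  filter_upwards [h E hE, hlim.eventually (ge_mem_nhds hε1)] with n h1 h2
  have := hN n
  exact hC σ c p E (η n) (M n) hσ hc (hη n) (h2.trans (min_le_left _ _))
    (h2.trans (min_le_right _ _)) (hM n) h1

/-- the same, if `η` only has to exist below every `ε` (one `η` for all the energies) -/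
theorem lawA {d : ℕ} {σ a b c p : ℝ} (hσ : σ ≠ 0) (hc : 0 < c)
    (h : ∀ ε : ℝ, 0 < ε → ∃ (η : ℝ) (M : ℕ) (_ : NeZero M), 0 < η ∧ η ≤ ε ∧ 1 ≤ η ^ 2 * M ∧
      ∀ E ∈ Set.Ioo a b, ∀ v : ℝ≥0, (v : ℝ) = σ ^ 2 →
        ENNReal.ofReal p ≤ gau d M v {V | c ≤ (rs V ⟨E, η⟩ 0 0).im}) :
    ∀ ε : ℝ, 0 < ε → ∃ η : ℝ, 0 < η ∧ η < ε ∧ ∀ E ∈ Set.Ioo a b,
      ENNReal.ofReal p ≤ PP d (gl σ) {V | c / 2 ≤ (G V (zz η E) (del 0) 0).im} := by
  intro ε hε
  obtain ⟨C, hC1, hC⟩ := law_core d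
  have hε1 : 0 < min (ε / 2) (min (c / 2) (1 / (24 * C ^ 5))) :=
    lt_min (by positivity) (lt_min (by positivity) (by positivity))
  obtain ⟨η, M, hN, hη, hηε, hηM, hp⟩ := h _ hε1
  have := hN
  have hη2 : η ≤ ε / 2 := hηε.trans (min_le_left _ _)
  exact ⟨η, hη, by linarith, fun E hE => hC σ c p E η M hσ hc hη
    (hηε.trans ((min_le_right _ _).trans (min_le_left _ _)))
    (hηε.trans ((min_le_right _ _).trans (min_le_right _ _))) hηM (hp E hE)⟩

end Pool.Agent.ACS.H72
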