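import Pool.Agent.Helper72_AHH.Chg

/-!
# ACS, TRI: the trace inequality

If the absorption is made smaller on `D`, the diagonal entries of the resolvent off `D` change in total
by at most the absorption of `D` before the change: no condition on resonances.

Proof: for `K s = κ - s (κ - κ')` the function
`∑_(x ∉ D) κ_x Re (θ_x G_s(x,x)) + (1 - s) ∑_(b ∈ D) (κ_b - κ'_b) Im G_s(b,b)` does not increase.
-/

set_option autoImplicit false

open scoped BigOperators Matrix ComplexConjugate Topology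

noncomputable section

namespace Pool.Agent.ACS.H72

open Pool.Agent.ANR (Gr Net)
open Pool.Agent.HSL14 (mat gr_eq gr_sym mat_unit ward_diag)

variable {X : Type} [Fintype X] [DecidableEq X]

/-- the entries of the resolvent are continuous -/
theorem cont_gr {H : Matrix X X ℝ} {K : ℝ → X → ℝ} (hK : ∀ x, Continuous fun s => K s x) {s : ℝ}
    (hN : Net H (K s)) (a b : X) : ContinuousAt (fun t => Gr H (K t) a b) s := by
  have hM : Continuous fun t => mat H (K t) := by
    unfold mat
    refine continuous_const.sub (Continuous.matrix_diagonal ?_)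
    refine continuous_pi fun x => ?_
    exact continuous_const.mul (Complex.continuous_ofReal.comp (hK x))
  have hd : (mat H (K s)).det ≠ 0 := (mat_unit hN).ne_zero
  have he : ∀ t, Gr H (K t) a b = ((mat H (K t)).det)⁻¹ * (mat H (K t)).adjugate a b := fun t => by
    rw [gr_eq, Matrix.inv_def, Ring.inverse_eq_inv', Matrix.smul_apply, smul_eq_mul]
  simp_rw [he]
  refine ContinuousAt.mul (ContinuousAt.inv₀ hM.matrix_det.continuousAt hd) ?_
  exact (hM.matrix_adjugate.matrix_elem a b).continuousAt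

/-- the derivative of the entries of the resolvent -/
theorem der_gr {H : Matrix X X ℝ} {κ l : X → ℝ} {s : ℝ}
    (hN : Net H fun x => κ x - s * l x) (a b : X) :
    HasDerivAt (fun t => Gr H (fun x => κ x - t * l x) a b)
      (-Complex.I * ∑ c, (l c : ℂ) * (Gr H (fun x => κ x - s * l x) a c *
        Gr H (fun x => κ x - s * l x) c b)) s := by
  have hK : ∀ x, Continuous fun t : ℝ => κ x - t * l x := fun x => by fun_prop
  have hev : ∀ᶠ t in 𝓝[≠] s, Net H fun x => κ x - t * l x := by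
    have h1 : ∀ᶠ t in 𝓝 s, ∀ x, 0 < κ x - t * l x := by
      rw [Filter.eventually_all]
      intro x
      exact (hK x).continuousAt.eventually (lt_mem_nhds (hN.pos x))
    exact (h1.filter_mono nhdsWithin_le_nhds).mono fun t ht => ⟨hN.sym, ht⟩
  rw [hasDerivAt_iff_tendsto_slope]
  have h2 : Filter.Tendsto (fun t => -Complex.I * ∑ c, (l c : ℂ) *
      (Gr H (fun x => κ x - s * l x) a c * Gr H (fun x => κ x - t * l x) c b)) (𝓝[≠] s)
      (𝓝 (-Complex.I * ∑ c, (l c : ℂ) * (Gr H (fun x => κ x - s * l x) a c *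
        Gr H (fun x => κ x - s * l x) c b))) := by
    refine Filter.Tendsto.const_mul _ (tendsto_finsetSum _ fun c _ => ?_)
    refine Filter.Tendsto.const_mul _ (Filter.Tendsto.const_mul _ ?_)
    exact (cont_gr (K := fun t x => κ x - t * l x) hK hN c b).tendsto.mono_left nhdsWithin_le_nhds
  refine h2.congr' ?_
  filter_upwards [hev, self_mem_nhdsWithin] with t ht hne
  have hne' : (t : ℂ) - s ≠ 0 := by
    intro h0
    apply hne
    have : (t : ℂ) = s := sub_eq_zero.1 h0
    exact_mod_cast this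
  have h3 := AHH.H72.gr_change (z := fun c => -(Complex.I * ((t - s : ℝ) : ℂ) * (l c : ℂ))) hN ht
    (fun x y => by
      have : (-(Complex.I * ((t - s : ℝ) : ℂ) * (l x : ℂ))).re = 0 := by
        simp
      rw [this]
      simp) (fun x => by
      have : (-(Complex.I * ((t - s : ℝ) : ℂ) * (l x : ℂ))).im = -((t - s) * l x) := by
        rw [Complex.neg_im, mul_assoc, Complex.I_mul_im, ← Complex.ofReal_mul, Complex.ofReal_re]
      rw [this]
      ring) a b
  rw [slope_def_module]
  have h4 : Gr H (fun x => κ x - t * l x) a b - Gr H (fun x => κ x - s * l x) a b =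
      ((t - s : ℝ) : ℂ) * (-Complex.I * ∑ c, (l c : ℂ) * (Gr H (fun x => κ x - s * l x) a c *
        Gr H (fun x => κ x - t * l x) c b)) := by
    rw [h3, add_sub_cancel_left, Finset.mul_sum, Finset.mul_sum]
    refine Finset.sum_congr rfl fun c _ => ?_
    ring
  rw [h4, Complex.real_smul, Complex.ofReal_inv, ← mul_assoc, inv_mul_cancel₀, one_mul]
  push_cast
  exact hne'

/-- TRI -/
theorem tri {H : Matrix X X ℝ} {κ κ' : X → ℝ} (hN : Net H κ) (hN' : Net H κ') (D : Finset X)
    (h1 : ∀ x, x ∉ D → κ' x = κ x) (h2 : ∀ b ∈ D, κ' b ≤ κ b) :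
    ∑ x ∈ Dᶜ, κ x * ‖Gr H κ' x x - Gr H κ x x‖ ≤
      ∑ b ∈ D, (κ b - κ' b) * (Gr H κ b b).im := by
  set l : X → ℝ := fun x => κ x - κ' x with hl
  have hl0 : ∀ x, x ∉ D → l x = 0 := fun x hx => by
    rw [hl]
    simp only
    rw [h1 x hx]
    ring
  have hl1 : ∀ x, 0 ≤ l x := fun x => by
    by_cases hx : x ∈ D
    · have := h2 x hx
      rw [hl]
      simp only
      linarith
    · rw [hl0 x hx]
  have hl2 : ∀ x, l x ≤ κ x := fun x => by
    have := hN'.pos x
    rw [hl]
    simp only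
    linarith
  have hNs : ∀ s : ℝ, 0 ≤ s → s ≤ 1 → Net H fun x => κ x - s * l x := fun s h0 h1 => by
    refine ⟨hN.sym, fun x => ?_⟩
    have e1 := hN.pos x
    have e2 := hN'.pos x
    have e3 : κ x - s * l x = (1 - s) * κ x + s * κ' x := by
      rw [hl]
      simp only
      ring
    rw [e3]
    rcases eq_or_lt_of_le h0 with h | h
    · rw [← h]
      linarith
    · have : 0 < s * κ' x := mul_pos h e2
      have : 0 ≤ (1 - s) * κ x := mul_nonneg (by linarith) e1.le
      linarith
  -- the phases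
  have hth : ∀ x, ∃ w : ℂ, ‖w‖ ≤ 1 ∧
      (w * (Gr H κ' x x - Gr H κ x x)).re = ‖Gr H κ' x x - Gr H κ x x‖ := fun x => by
    obtain ⟨z, hz⟩ : ∃ z, z = Gr H κ' x x - Gr H κ x x := ⟨_, rfl⟩
    rw [← hz]
    by_cases h0 : z = 0
    · exact ⟨0, by simp, by rw [h0]; simp⟩
    · have hn : (‖z‖ : ℂ) ≠ 0 := by
        exact_mod_cast (norm_ne_zero_iff.2 h0)
      refine ⟨conj z / ‖z‖, ?_, ?_⟩
      · rw [norm_div, Complex.norm_real, Real.norm_eq_abs, abs_of_nonneg (norm_nonneg z),
          Complex.norm_conj, div_self (norm_ne_zero_iff.2 h0)]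
      · have : conj z / (‖z‖ : ℂ) * z = (‖z‖ : ℂ) := by
          rw [div_mul_eq_mul_div, mul_comm (conj z) z, Complex.mul_conj, Complex.normSq_eq_norm_sq]
          rw [div_eq_iff hn]
          push_cast
          ring
        rw [this, Complex.ofReal_re]
  choose w hw1 hw2 using hth
  -- the function
  set G : ℝ → X → X → ℂ := fun s a b => Gr H (fun x => κ x - s * l x) a b with hG
  set F : ℝ → ℝ := fun s => ∑ x ∈ Dᶜ, κ x * (w x * G s x x).re +
    (1 - s) * ∑ b ∈ D, l b * (G s b b).im with hF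
  have hder : ∀ s : ℝ, 0 ≤ s → s ≤ 1 → HasDerivAt F
      (∑ x ∈ Dᶜ, κ x * (w x * (-Complex.I * ∑ c, (l c : ℂ) * (G s x c * G s c x))).re +
        (-(∑ b ∈ D, l b * (G s b b).im) +
          (1 - s) * ∑ b ∈ D, l b * (-Complex.I * ∑ c, (l c : ℂ) * (G s b c * G s c b)).im)) s := by
    intro s h0 h1
    have hd := fun a b => der_gr (hNs s h0 h1) a b
    refine HasDerivAt.add ?_ ?_
    · refine HasDerivAt.fun_sum fun x _ => ?_
      refine HasDerivAt.const_mul _ ?_
      have e1 := (hd x x).const_mul (w x)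
      exact (Complex.reCLM.hasFDerivAt.comp_hasDerivAt s e1)
    · have e2 : HasDerivAt (fun s : ℝ => ∑ b ∈ D, l b * (G s b b).im)
          (∑ b ∈ D, l b * (-Complex.I * ∑ c, (l c : ℂ) * (G s b c * G s c b)).im) s := by
        refine HasDerivAt.fun_sum fun b _ => ?_
        refine HasDerivAt.const_mul _ ?_
        exact (Complex.imCLM.hasFDerivAt.comp_hasDerivAt s (hd b b))
      have e3 : HasDerivAt (fun s : ℝ => 1 - s) (-1) s := by
        simpa using (hasDerivAt_id s).const_sub 1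
      have e4 := e3.mul e2
      refine e4.congr_deriv ?_
      ring
  have hneg : ∀ s : ℝ, 0 ≤ s → s ≤ 1 →
      ∑ x ∈ Dᶜ, κ x * (w x * (-Complex.I * ∑ c, (l c : ℂ) * (G s x c * G s c x))).re +
        (-(∑ b ∈ D, l b * (G s b b).im) +
          (1 - s) * ∑ b ∈ D, l b * (-Complex.I * ∑ c, (l c : ℂ) * (G s b c * G s c b)).im) ≤ 0 := by
    intro s h0 h1'
    have hNN := hNs s h0 h1'
    have hsym : ∀ a b, G s a b = G s b a := fun a b => gr_sym hNN.sym _ a b
    have hward : ∀ b, ∑ y, (κ y - s * l y) * ‖G s b y‖ ^ 2 = (G s b b).im := fun b =>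
      ward_diag hNN.sym (mat_unit hNN) b
    have hsq : ∀ a c, ‖G s a c * G s c a‖ = ‖G s a c‖ ^ 2 := fun a c => by
      rw [hsym c a, norm_mul, sq]
    have e1 : ∀ x, (w x * (-Complex.I * ∑ c, (l c : ℂ) * (G s x c * G s c x))).re ≤
        ∑ c, l c * ‖G s x c‖ ^ 2 := fun x => by
      refine (Complex.re_le_norm _).trans ?_
      rw [norm_mul, norm_mul, norm_neg, Complex.norm_I, one_mul]
      refine (mul_le_of_le_one_left (norm_nonneg _) (hw1 x)).trans ?_
      refine (norm_sum_le _ _).trans (Finset.sum_le_sum fun c _ => ?_)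
      rw [norm_mul, hsq, Complex.norm_real, Real.norm_eq_abs, abs_of_nonneg (hl1 c)]
    have e2 : ∀ b, (-Complex.I * ∑ c, (l c : ℂ) * (G s b c * G s c b)).im ≤
        ∑ c, l c * ‖G s b c‖ ^ 2 := fun b => by
      refine (Complex.im_le_norm _).trans ?_
      rw [norm_mul, norm_neg, Complex.norm_I, one_mul]
      refine (norm_sum_le _ _).trans (Finset.sum_le_sum fun c _ => ?_)
      rw [norm_mul, hsq, Complex.norm_real, Real.norm_eq_abs, abs_of_nonneg (hl1 c)]
    have e3 : ∀ (f : X → ℝ), ∑ c, l c * f c = ∑ c ∈ D, l c * f c := fun f => by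
      symm
      refine Finset.sum_subset (Finset.subset_univ _) fun c _ hc => ?_
      rw [hl0 c hc, zero_mul]
    have e4 : ∑ x ∈ Dᶜ, κ x * (w x * (-Complex.I * ∑ c, (l c : ℂ) * (G s x c * G s c x))).re ≤
        ∑ c ∈ D, l c * ∑ x ∈ Dᶜ, κ x * ‖G s c x‖ ^ 2 := by
      calc _ ≤ ∑ x ∈ Dᶜ, κ x * ∑ c ∈ D, l c * ‖G s x c‖ ^ 2 := by
            refine Finset.sum_le_sum fun x _ => ?_
            rw [← e3 fun c => ‖G s x c‖ ^ 2]
            exact mul_le_mul_of_nonneg_left (e1 x) (hN.pos x).le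
        _ = _ := by
            simp_rw [Finset.mul_sum]
            rw [Finset.sum_comm]
            refine Finset.sum_congr rfl fun c _ => Finset.sum_congr rfl fun x _ => ?_
            rw [hsym x c]
            ring
    have e5 : ∑ b ∈ D, l b * (-Complex.I * ∑ c, (l c : ℂ) * (G s b c * G s c b)).im ≤
        ∑ b ∈ D, l b * ∑ c ∈ D, l c * ‖G s b c‖ ^ 2 := by
      refine Finset.sum_le_sum fun b _ => ?_
      rw [← e3 fun c => ‖G s b c‖ ^ 2]
      exact mul_le_mul_of_nonneg_left (e2 b) (hl1 b)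
    have e6 : ∀ c, (G s c c).im = ∑ x ∈ Dᶜ, κ x * ‖G s c x‖ ^ 2 +
        ∑ b ∈ D, (κ b - s * l b) * ‖G s c b‖ ^ 2 := fun c => by
      rw [← hward c, ← Finset.sum_add_sum_compl D, add_comm]
      congr 1
      refine Finset.sum_congr rfl fun x hx => ?_
      rw [hl0 x (Finset.mem_compl.1 hx)]
      ring
    have e7 : ∑ b ∈ D, l b * (G s b b).im = ∑ b ∈ D, l b * ∑ x ∈ Dᶜ, κ x * ‖G s b x‖ ^ 2 +
        ∑ b ∈ D, l b * ∑ c ∈ D, (κ c - s * l c) * ‖G s b c‖ ^ 2 := by
      rw [← Finset.sum_add_distrib]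
      refine Finset.sum_congr rfl fun b _ => ?_
      rw [e6 b]
      ring
    have e8 : (1 - s) * ∑ b ∈ D, l b * ∑ c ∈ D, l c * ‖G s b c‖ ^ 2 ≤
        ∑ b ∈ D, l b * ∑ c ∈ D, (κ c - s * l c) * ‖G s b c‖ ^ 2 := by
      rw [Finset.mul_sum]
      refine Finset.sum_le_sum fun b _ => ?_
      rw [mul_left_comm]
      refine mul_le_mul_of_nonneg_left ?_ (hl1 b)
      rw [Finset.mul_sum]
      refine Finset.sum_le_sum fun c _ => ?_
      have := hl2 c
      have h5 : (1 - s) * l c ≤ κ c - s * l c := by linarith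
      calc (1 - s) * (l c * ‖G s b c‖ ^ 2) = ((1 - s) * l c) * ‖G s b c‖ ^ 2 := by ring
        _ ≤ _ := mul_le_mul_of_nonneg_right h5 (sq_nonneg _)
    have e9 := mul_le_mul_of_nonneg_left e5 (show 0 ≤ 1 - s by linarith)
    linarith
  have hanti : AntitoneOn F (Set.Icc 0 1) := by
    refine antitoneOn_of_deriv_nonpos (convex_Icc 0 1)
      (fun s hs => (hder s hs.1 hs.2).continuousAt.continuousWithinAt) (fun s hs => ?_)
      fun s hs => ?_
    · rw [interior_Icc] at hs
      exact (hder s hs.1.le hs.2.le).differentiableAt.differentiableWithinAt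
    · rw [interior_Icc] at hs
      rw [(hder s hs.1.le hs.2.le).deriv]
      exact hneg s hs.1.le hs.2.le
  have hfin := hanti (Set.left_mem_Icc.2 zero_le_one) (Set.right_mem_Icc.2 zero_le_one) zero_le_one
  have hG0 : G 0 = Gr H κ := by
    funext a b
    rw [hG]
    simp
  have hG1 : G 1 = Gr H κ' := by
    funext a b
    rw [hG]
    simp only
    congr 2
    funext x
    rw [hl]
    ring
  rw [hF] at hfin
  simp only at hfin
  rw [hG0, hG1] at hfin
  have hend : ∑ x ∈ Dᶜ, κ x * ‖Gr H κ' x x - Gr H κ x x‖ =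
      ∑ x ∈ Dᶜ, κ x * (w x * Gr H κ' x x).re - ∑ x ∈ Dᶜ, κ x * (w x * Gr H κ x x).re := by
    rw [← Finset.sum_sub_distrib]
    refine Finset.sum_congr rfl fun x _ => ?_
    rw [← hw2 x, mul_sub, Complex.sub_re]
    ring
  rw [hend]
  linarith

end Pool.Agent.ACS.H72
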