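import Pool.Agent.Helper72_ACS.Tri
import Pool.Agent.Helper63_ANR.GRN
import Pool.Agent.Helper72_ANR.GEQ
import Pool.Agent.Helper77_ANR.DIR

/-!
# QDA: the resolvent of a network is a contraction

With `κ` the absorption, `√κ G √κ` is a contraction.
-/

set_option autoImplicit false

open scoped BigOperators Matrix ComplexConjugate Topology

noncomputable section

namespace Pool.Agent.ACS.H72

open Pool.Agent.ANR (Gr Net opv GeqStmt)
open Pool.Agent.HSL14 (mat gr_eq gr_sym mat_unit ward_diag)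

variable {X : Type} [Fintype X] [DecidableEq X]

theorem geqT : GeqStmt :=
  Pool.Agent.ANR.H72.geq (Pool.Agent.ANR.H77.dir Pool.Agent.ANR.H63.grn) Pool.Agent.ANR.H63.grn

/-- `√κ G √κ` is a contraction, first form -/
theorem contr1 {H : Matrix X X ℝ} {κ : X → ℝ} (hN : Net H κ) (v : X → ℂ) :
    ∑ x, κ x * ‖∑ y, Gr H κ x y * (κ y * v y)‖ ^ 2 ≤ ∑ x, κ x * ‖v x‖ ^ 2 := by
  set w : X → ℂ := fun x => ∑ y, Gr H κ x y * (κ y * v y) with hw
  have h1 : ∀ x, opv H κ w x = κ x * v x := by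
    intro x
    have e1 : opv H κ w x = ∑ y, opv H κ (fun z => Gr H κ z y) x * (κ y * v y) := by
      have e0 : ∀ y, opv H κ (fun z => Gr H κ z y) x * (κ y * v y) =
          (∑ z, (H x z : ℂ) * (Gr H κ z y * (κ y * v y))) -
            (Complex.I * κ x) * (Gr H κ x y * (κ y * v y)) := fun y => by
        unfold opv
        rw [sub_mul, Finset.sum_mul]
        congr 1
        · refine Finset.sum_congr rfl fun z _ => ?_
          ring
        · ring
      rw [Finset.sum_congr rfl fun y _ => e0 y, Finset.sum_sub_distrib, Finset.sum_comm,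
        ← Finset.mul_sum]
      unfold opv
      rw [hw]
      simp only
      rw [Finset.sum_congr rfl fun z _ => Finset.mul_sum _ _ _]
    rw [e1]
    have e2 := (geqT X H κ hN).1
    rw [Finset.sum_congr rfl fun y _ => by rw [e2 x y]]
    simp
  have h2 := (Pool.Agent.ANR.H63.grn X H κ hN).2 w
  have h3 : ∑ x, κ x * ‖w x‖ ^ 2 ≤ ∑ x, κ x * (‖w x‖ * ‖v x‖) := by
    have e3 : ∑ x, κ x * ‖w x‖ ^ 2 = -(∑ x, conj (w x) * opv H κ w x).im := by
      rw [h2]
      ring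
    rw [e3]
    refine (neg_le_abs _).trans ((Complex.abs_im_le_norm _).trans ?_)
    refine (norm_sum_le _ _).trans (Finset.sum_le_sum fun x _ => ?_)
    rw [h1 x, norm_mul, norm_mul, Complex.norm_conj, Complex.norm_real, Real.norm_eq_abs,
      abs_of_pos (hN.pos x)]
    exact le_of_eq (by ring)
  have h4 : ∑ x, κ x * (‖w x‖ * ‖v x‖) ≤
      (1 / 2) * ∑ x, κ x * ‖w x‖ ^ 2 + (1 / 2) * ∑ x, κ x * ‖v x‖ ^ 2 := by
    rw [Finset.mul_sum, Finset.mul_sum, ← Finset.sum_add_distrib]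
    refine Finset.sum_le_sum fun x _ => ?_
    have := hN.pos x
    nlinarith [sq_nonneg (‖w x‖ - ‖v x‖)]
  linarith

/-- `√κ G √κ` is a contraction, second form -/
theorem contr2 {H : Matrix X X ℝ} {κ : X → ℝ} (hN : Net H κ) (u v : X → ℂ) :
    ‖∑ x, ∑ y, (κ x * u x) * Gr H κ x y * (κ y * v y)‖ ≤
      (1 / 2) * ∑ x, κ x * ‖u x‖ ^ 2 + (1 / 2) * ∑ x, κ x * ‖v x‖ ^ 2 := by
  have h1 : ∑ x, ∑ y, (κ x * u x) * Gr H κ x y * (κ y * v y) =
      ∑ x, (κ x * u x) * ∑ y, Gr H κ x y * (κ y * v y) := by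
    refine Finset.sum_congr rfl fun x _ => ?_
    rw [Finset.mul_sum]
    refine Finset.sum_congr rfl fun y _ => ?_
    ring
  rw [h1]
  have h2 : ‖∑ x, (κ x * u x) * ∑ y, Gr H κ x y * (κ y * v y)‖ ≤
      ∑ x, κ x * (‖u x‖ * ‖∑ y, Gr H κ x y * (κ y * v y)‖) := by
    refine (norm_sum_le _ _).trans (Finset.sum_le_sum fun x _ => ?_)
    rw [norm_mul, norm_mul, Complex.norm_real, Real.norm_eq_abs, abs_of_pos (hN.pos x)]
    exact le_of_eq (by ring)
  have h3 : ∑ x, κ x * (‖u x‖ * ‖∑ y, Gr H κ x y * (κ y * v y)‖) ≤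
      (1 / 2) * ∑ x, κ x * ‖u x‖ ^ 2 +
        (1 / 2) * ∑ x, κ x * ‖∑ y, Gr H κ x y * (κ y * v y)‖ ^ 2 := by
    rw [Finset.mul_sum, Finset.mul_sum, ← Finset.sum_add_distrib]
    refine Finset.sum_le_sum fun x _ => ?_
    have := hN.pos x
    nlinarith [sq_nonneg (‖u x‖ - ‖∑ y, Gr H κ x y * (κ y * v y)‖)]
  have h4 := contr1 hN v
  linarith

end Pool.Agent.ACS.H72
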